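import Pool.Agent.H65.HX.SStm

/-!
# Project HX, scheme side: parts VF, VG, VK
-/

set_option autoImplicit false
open Classical Finset

namespace Pool.Agent.H15.HX

open Pool.Agent.H39.HW (sm Av ln blk lab)
open Pool.Agent.H65.HX Pool.Agent.H65.HX.Sc

theorem par_h (x : Prm) (hx : Par x) : (1000 : ℝ) ≤ x.h := by exact_mod_cast hx.h1

theorem par_L (x : Prm) (hx : Par x) : (8000000 : ℝ) ≤ x.L := by
  have h1 := par_h x hx
  have : (x.L : ℝ) = 8 * x.h ^ 2 + 4 * x.h := by rw [hx.L1]; push_cast; ring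
  rw [this]
  nlinarith

/-- `n0 μ ≤ 1 / (10 ^ 12 L h)` -/
theorem par_v (x : Prm) (hx : Par x) : x.n0 * x.μ ≤ 1 / (10 ^ 12 * x.L * x.h) := by
  have hL := par_L x hx
  have hh := par_h x hx
  rw [le_div_iff₀ (by positivity)]
  have := hx.V1
  nlinarith

theorem par_eta (x : Prm) (hx : Par x) : x.η ≤ 1 / (10 ^ 18 * x.L * x.h) := by
  have hL := par_L x hx
  have hh := par_h x hx
  have h1 := par_v x hx
  have h2 := hx.V2
  have e : 1 / (10 ^ 18 * (x.L : ℝ) * x.h) = 1 / (10 ^ 12 * x.L * x.h) / 10 ^ 6 := by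
    field_simp
  rw [e, le_div_iff₀ (by norm_num)]
  linarith

theorem par_eta1 (x : Prm) (hx : Par x) : x.η ≤ 1 / 10 ^ 18 := by
  have hL := par_L x hx
  have hh := par_h x hx
  refine (par_eta x hx).trans ?_
  apply one_div_le_one_div_of_le (by norm_num)
  have : (1 : ℝ) ≤ x.L * x.h := by nlinarith
  nlinarith

theorem par_mu (x : Prm) (hx : Par x) : 10 ^ 20 * x.μ ≤ x.n0 * x.μ * x.θ := by
  have h1 := hx.u1
  have h2 := hx.V2
  have hL := par_L x hx
  have hm := hx.m0
  have ht := hx.t0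
  have hn := hx.n1
  have h3 : (1 : ℝ) ≤ (x.L : ℝ) ^ 4 := one_le_pow₀ (by linarith)
  have h4 : 10 ^ 20 * x.μ ≤ 10 ^ 20 * (x.L : ℝ) ^ 4 * x.μ := by
    apply mul_le_mul_of_nonneg_right _ hm.le
    linarith
  have h5 : x.η * x.θ ≤ x.n0 * x.μ * x.θ := by
    apply mul_le_mul_of_nonneg_right _ ht.le
    linarith
  linarith

theorem t_VK (hT : S_TOT) (hE : S_CEN) (hW : S_WIN) (hC : S_CLD) : S_VK := by
  intro x hx φ s
  have hh : 0 < x.h := by have := hx.h1; omega
  have ht1 : 0 < x.t := hx.t1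
  have hm := hx.m0
  have hth := hx.t0
  have hR : s.R0 ⊆ s.R := Finset.filter_subset _ _
  refine ⟨hR, ?_, ?_, ?_, ?_⟩
  · intro τ
    cases τ with
    | false =>
      refine ⟨x.h, ?_, ?_⟩
      · show x.h < 2 * x.h
        omega
      · show decide (x.h < x.h) = false
        simp
    | true =>
      refine ⟨0, ?_, ?_⟩
      · show 0 < 2 * x.h
        omega
      · show decide (0 < x.h) = true
        simpa using hh
  · intro P hP a ha β hβ
    have haR : a ∈ x.R := hR ha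
    have hβ' : β ∈ x.S P a := hβ
    unfold Prm.S at hβ'
    rw [Finset.mem_filter] at hβ'
    obtain ⟨-, h1, -⟩ := hβ'
    obtain ⟨-, -, -, h2, h3⟩ := (hW x hx a haR (x.tp P)).1 β h1
    show x.tp P = decide (a < β)
    rcases Bool.eq_false_or_eq_true (x.tp P) with h4 | h4
    · rw [h4]
      have := (h2 h4).1
      simp [this]
    · rw [h4]
      have := (h3 h4).1
      have h5 : ¬ a < β := by omega
      simp [h5]
  · show 0 ≤ x.n0 * x.μ * x.θ
    positivity
  · intro a ha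
    have haR : a ∈ x.R := hR ha
    have h1 := (hT x hx a haR).2
    have h2 := (hE x hx a haR).2 ha
    have hnot := (hC x hx a haR).2.2.1
    have e1 : ∑ β ∈ (s.cls x.p a).filter (fun β => decide (a < β) = false), s.dem x.D a β =
        x.DL a := by
      unfold Prm.DL
      have : (s.cls x.p a).filter (fun β => decide (a < β) = false) =
          (x.cls a).filter (fun β => β < a) := by
        apply Finset.filter_congr
        intro β hβ
        have hne : β ≠ a := by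
          rintro rfl
          exact hnot hβ
        rw [decide_eq_false_iff_not]
        omega
      rw [this]
      rfl
    have e2 : ∑ P ∈ (range s.H).filter (fun P => s.ty P = false),
        ((lab s.st (s.S P a)).card : ℝ) / x.D = x.sr false a := rfl
    have e3 : ((range s.m).filter fun y => s.ty (s.part y) = false).card = x.h * x.t := by
      have : ((range s.m).filter fun y => s.ty (s.part y) = false) =
          Finset.Ico (x.h * x.t) (2 * x.h * x.t) := by
        ext y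
        rw [Finset.mem_filter, Finset.mem_range, Finset.mem_Ico]
        have e4 : s.ty (s.part y) = decide (y / x.t < x.h) := rfl
        have e5 : s.m = 2 * x.h * x.t := rfl
        rw [e4, e5, decide_eq_false_iff_not, Nat.div_lt_iff_lt_mul ht1]
        constructor
        · rintro ⟨h6, h7⟩; exact ⟨by omega, h6⟩
        · rintro ⟨h6, h7⟩; exact ⟨h7, by omega⟩
      rw [this, Nat.card_Ico]
      have : 2 * x.h * x.t = x.h * x.t + x.h * x.t := by ring
      omega
    rw [e1, e2, e3]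
    have e6 : s.ω * ((x.h * x.t : ℕ) : ℝ) = x.θ / 2 := by
      show x.θ / (2 * x.h * x.t) * ((x.h * x.t : ℕ) : ℝ) = x.θ / 2
      have h7 : (0 : ℝ) < x.h := by exact_mod_cast hh
      have h8 : (0 : ℝ) < x.t := by exact_mod_cast ht1
      push_cast
      field_simp
    rw [e6]
    show |x.DL a + x.sr false a - x.θ / 2| ≤ x.n0 * x.μ * x.θ
    have h3 := par_mu x hx
    have h1' := abs_le.1 h1
    have h2' := abs_le.1 h2
    rw [abs_le]
    constructor
    · nlinarith [h1'.1, h2'.1]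
    · nlinarith [h1'.2, h2'.2]

/-- bounds for the totals -/
theorem Tt_bounds (hT : S_TTB) (hS : S_SRB) (x : Prm) (hx : Par x) (a : ℕ) (ha : a ∈ x.R)
    (τ : Bool) : x.θ * (1 / 2 - 1 / (100 * x.L)) ≤ x.Tt τ a ∧
      x.Tt τ a ≤ x.θ * (1 / 2 - 1 / (201 * x.L)) := by
  obtain ⟨h1, -, h3, h4, -⟩ := hT x hx a ha τ
  obtain ⟨s1, -, -, -⟩ := (hS x hx a ha).2.2 τ
  have hL := par_L x hx
  have hh := par_h x hx
  have hL0 : (0 : ℝ) < x.L := by linarith
  have ht := hx.t0
  have hv := par_v x hx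
  have hη := par_eta1 x hx
  refine ⟨by linarith, ?_⟩
  have hq : 0 < x.θ / x.L := by positivity
  have e1 : x.θ / (200 * x.L) = x.θ / x.L * (1 / 200) := by field_simp
  have e2 : x.θ * (1 / 2 - 1 / (201 * x.L)) = x.θ / 2 - x.θ / x.L * (1 / 201) := by field_simp
  rw [e1] at s1
  rw [e2]
  have herr : |x.Tt τ a + x.sr τ a - x.θ / 2| ≤ x.θ / x.L * (1 / 10 ^ 6) := by
    by_cases h0 : a ∈ x.R0
    · refine (h4 h0).trans ?_
      have h5 : x.n0 * x.μ * x.θ ≤ 1 / (10 ^ 12 * x.L * x.h) * x.θ :=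
        mul_le_mul_of_nonneg_right hv ht.le
      have h6 : 1 / (10 ^ 12 * (x.L : ℝ) * x.h) * x.θ = x.θ / x.L * (1 / (10 ^ 12 * x.h)) := by
        field_simp
      have h7 : 1 / (10 ^ 12 * (x.h : ℝ)) ≤ 1 / 10 ^ 6 := by
        apply one_div_le_one_div_of_le (by norm_num)
        nlinarith
      have h8 := mul_le_mul_of_nonneg_left h7 hq.le
      rw [h6] at h5
      linarith
    · refine (h3 h0).2.trans ?_
      have h6 : x.η * x.θ / (50 * x.L) = x.θ / x.L * (x.η / 50) := by field_simp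
      rw [h6]
      apply mul_le_mul_of_nonneg_left _ hq.le
      linarith
  have := (abs_le.1 herr).2
  nlinarith

theorem TT_bounds (hT : S_TTB) (hS : S_SRB) (x : Prm) (hx : Par x) (a : ℕ) (ha : a ∈ x.R)
    (β : ℕ) : x.θ * (1 / 2 - 1 / (100 * x.L)) ≤ TT x a β ∧
      TT x a β ≤ x.θ * (1 / 2 - 1 / (201 * x.L)) := by
  unfold TT
  split_ifs with h0
  · exact Tt_bounds hT hS x hx a ha _
  · rw [← ((hT x hx a ha true).2.2.1 h0).1]
    exact Tt_bounds hT hS x hx a ha _

theorem t_VF (hK : S_KTB) (hT : S_TTB) (hS : S_SRB) (hC : S_CLD) : S_VF := by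
  intro x hx φ hφ s a ha β hβ
  have hβ' : β ∈ x.cls a := hβ
  have h1 := (hK x hx φ hφ a ha).2 β hβ'
  have hdem := ((hC x hx a ha).2.2.2.2.2.1 β hβ').1
  obtain ⟨hD1, hD2⟩ := TT_bounds hT hS x hx a ha β
  have hh := par_h x hx
  have hL := par_L x hx
  have ht := hx.t0
  have hm := hx.m0
  have hη := par_eta1 x hx
  have hη0 := hx.n1
  have hL0 : (0 : ℝ) < x.L := by linarith
  have hh0 : (0 : ℝ) < x.h := by linarith
  have ht1 : (0 : ℝ) < x.t := by exact_mod_cast hx.t1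
  set T : ℝ := TT x a β with hTd
  have hD0 : 0 < T := by
    have : (1 : ℝ) / (100 * x.L) ≤ 1 / 4 := by
      rw [div_le_div_iff₀ (by positivity) (by norm_num)]
      linarith
    nlinarith
  have hd0 : 0 < x.dem a β := lt_of_lt_of_le (by positivity) hdem
  have hs1 : s.ω = x.θ / (2 * x.h * x.t) := rfl
  have hs2 : s.ρ1 = 1 / (200 * x.L) := rfl
  have hs3 : s.ρ2 = 1 / (32 * x.L) := rfl
  have hs4 : s.lo x.D a β = s.ω * s.kt a β - x.dem a β := rfl
  -- u = 1 / L
  set u : ℝ := 1 / x.L with hu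
  have hu0 : 0 < u := by positivity
  have hu1 : u ≤ 1 / 8000000 := by
    rw [hu]
    exact one_div_le_one_div_of_le (by norm_num) hL
  have f1 : (1 : ℝ) / (100 * x.L) = u / 100 := by rw [hu]; field_simp
  have f2 : (1 : ℝ) / (201 * x.L) = u / 201 := by rw [hu]; field_simp
  have f3 : (1 : ℝ) / (200 * x.L) = u / 200 := by rw [hu]; field_simp
  have f4 : (1 : ℝ) / (32 * x.L) = u / 32 := by rw [hu]; field_simp
  have f5 : x.η / (10 ^ 5 * x.L ^ 2) = x.η * u ^ 2 / 10 ^ 5 := by rw [hu]; field_simp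
  rw [f1] at hD1
  rw [f2] at hD2
  rw [f5] at h1
  have hκ : x.η * u ^ 2 / 10 ^ 5 ≤ u ^ 2 / 10 ^ 4 := by
    have : x.η * u ^ 2 ≤ 1 * u ^ 2 := mul_le_mul_of_nonneg_right (by linarith) (sq_nonneg _)
    nlinarith [sq_nonneg u]
  have hK0 : 0 ≤ x.h * x.t * x.dem a β / T := by positivity
  replace h1 := h1.trans (mul_le_mul_of_nonneg_right hκ hK0)
  -- r = ω kt
  set r : ℝ := s.ω * s.kt a β with hr
  have g1 : |T * r - x.θ / 2 * x.dem a β| ≤ u ^ 2 / 10 ^ 4 * (x.θ / 2 * x.dem a β) := by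
    have e1 : T * r - x.θ / 2 * x.dem a β = x.θ / (2 * x.h * x.t) * T *
        ((s.kt a β : ℝ) - x.h * x.t * x.dem a β / T) := by
      rw [hr, hs1]
      field_simp
    rw [e1, abs_mul, abs_of_pos (by positivity)]
    calc x.θ / (2 * x.h * x.t) * T *
          |(s.kt a β : ℝ) - x.h * x.t * x.dem a β / T|
        ≤ x.θ / (2 * x.h * x.t) * T *
          (u ^ 2 / 10 ^ 4 * (x.h * x.t * x.dem a β / T)) :=
          mul_le_mul_of_nonneg_left h1 (by positivity)
      _ = u ^ 2 / 10 ^ 4 * (x.θ / 2 * x.dem a β) := by field_simp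
  have g2 := abs_le.1 g1
  have hr0 : 0 < r := by
    by_contra hcon
    push Not at hcon
    have : T * r ≤ 0 := mul_nonpos_of_nonneg_of_nonpos hD0.le hcon
    have h9 : 0 < x.θ / 2 * x.dem a β := by positivity
    have hu3 : u ^ 2 / 10 ^ 4 ≤ 1 / 2 := by nlinarith
    have h10 := mul_le_mul_of_nonneg_right hu3 h9.le
    linarith [g2.1]
  have ht2 : 0 < x.θ / 2 := by positivity
  have k1 : x.dem a β * (1 - u ^ 2 / 10 ^ 4) ≤ r * (1 - 2 * u / 201) := by
    have h10 : T * r ≤ x.θ * (1 / 2 - u / 201) * r := mul_le_mul_of_nonneg_right hD2 hr0.le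
    have h11 : x.θ / 2 * (x.dem a β * (1 - u ^ 2 / 10 ^ 4)) ≤ x.θ / 2 * (r * (1 - 2 * u / 201)) := by
      nlinarith [g2.1]
    exact le_of_mul_le_mul_left h11 ht2
  have k2 : r * (1 - u / 50) ≤ x.dem a β * (1 + u ^ 2 / 10 ^ 4) := by
    have h10 : x.θ * (1 / 2 - u / 100) * r ≤ T * r := mul_le_mul_of_nonneg_right hD1 hr0.le
    have h11 : x.θ / 2 * (r * (1 - u / 50)) ≤ x.θ / 2 * (x.dem a β * (1 + u ^ 2 / 10 ^ 4)) := by
      nlinarith [g2.2]
    exact le_of_mul_le_mul_left h11 ht2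
  have hu2 : u ^ 2 / 10 ^ 4 ≤ u / 10 ^ 8 := by nlinarith
  have hur : 0 < u * r := mul_pos hu0 hr0
  have hud : 0 < u * x.dem a β := mul_pos hu0 hd0
  have hw1 : x.dem a β * (u ^ 2 / 10 ^ 4) ≤ u * x.dem a β / 10 ^ 8 := by nlinarith
  -- dem ≤ 2 r
  have k3 : x.dem a β ≤ 2 * r := by nlinarith
  have k4 : r ≤ 2 * x.dem a β := by nlinarith
  rw [hs2, hs3, hs4, f3, f4]
  have c1 : u / 200 * r ≤ r - x.dem a β := by nlinarith
  refine ⟨c1, ?_, ?_⟩
  · nlinarith
  · nlinarith

/-- one term -/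
theorem term_bound {N Dt dem k kt κ : ℝ} (hN : 0 < N) (hDt : 0 < Dt) (hdem : 0 < dem)
    (hk : 0 ≤ k) (hκ : κ ≤ 1 / 2) (h : |kt - N * dem / Dt| ≤ κ * (N * dem / Dt)) :
    0 < kt ∧ |dem * k / kt - Dt / N * k| ≤ 2 * κ * (Dt / N) * k := by
  have hK0 : 0 < N * dem / Dt := by positivity
  set K0 := N * dem / Dt with hK0d
  have h1 := abs_le.mp h
  have hkt : K0 / 2 ≤ kt := by nlinarith [h1.1]
  have hkt0 : 0 < kt := by linarith
  refine ⟨hkt0, ?_⟩
  have hde : dem = K0 * (Dt / N) := by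
    rw [hK0d]; field_simp
  have e1 : dem * k / kt - Dt / N * k = (Dt / N * k) * ((K0 - kt) / kt) := by
    rw [hde]; field_simp
  have hDN : 0 ≤ Dt / N * k := by positivity
  rw [e1, abs_mul, abs_of_nonneg hDN, abs_div, abs_of_pos hkt0]
  have h2 : |K0 - kt| / kt ≤ 2 * κ := by
    rw [div_le_iff₀ hkt0, abs_sub_comm]
    have hκ0 : 0 ≤ κ := by
      by_contra hc
      push Not at hc
      have := abs_nonneg (kt - K0)
      nlinarith
    nlinarith
  calc Dt / N * k * (|K0 - kt| / kt) ≤ Dt / N * k * (2 * κ) :=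
        mul_le_mul_of_nonneg_left h2 hDN
    _ = 2 * κ * (Dt / N) * k := by ring

/-- a rigid row is not served from the wrong side -/
theorem uP_zero (x : Prm) (P a β : ℕ) (ha : a ∈ x.R0) (h : x.tp P ≠ decide (a < β)) :
    x.uP P a β = 0 := by
  have hu : x.u (x.tp P) a β = 0 := by
    unfold Prm.u Prm.fr Prm.gA
    rcases Bool.eq_false_or_eq_true (x.tp P) with h4 | h4
    · rw [h4] at h ⊢
      have h5 : ¬ a < β := by
        intro h6
        apply h
        simp [h6]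
      simp [ha, h5]
    · rw [h4] at h ⊢
      have h5 : a < β := by
        by_contra h6
        apply h
        simp [h6]
      simp [ha, h5]
  unfold Prm.uP
  rw [hu]
  simp

theorem t_VG (hK : S_KTB) (hR : S_KKR) (hT : S_TTB) (hS : S_SRB) (hC : S_CLD) : S_VG := by
  intro x hx φ hφ s P hP a ha
  have haR : a ∈ x.R := ha
  have hP' : P < 2 * x.h := hP
  obtain ⟨hkP, hkt⟩ := hK x hx φ hφ a haR
  obtain ⟨hsum, -, hz, -⟩ := (hR x hx P hP').1 a haR
  obtain ⟨hcls, -, -, -, -, hdem, -⟩ := hC x hx a haR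
  have hθ := hx.t0
  have hμ := hx.m0
  have hη0 := hx.n1
  have hh := par_h x hx
  have hh0 : (0 : ℝ) < x.h := by linarith
  have ht : (0 : ℝ) < x.t := by
    have := hx.t1
    have : 0 < x.t := by omega
    exact_mod_cast this
  have hL := par_L x hx
  have hL0 : (0 : ℝ) < x.L := by linarith
  have hη := par_eta1 x hx
  obtain ⟨hD1, hD2⟩ := Tt_bounds hT hS x hx a haR (x.tp P)
  set T : ℝ := x.Tt (x.tp P) a with hTd
  have hT0 : 0 < T := by
    have : (1 : ℝ) / (100 * x.L) ≤ 1 / 4 := by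
      rw [div_le_div_iff₀ (by positivity) (by norm_num)]
      linarith
    nlinarith
  have hT2 : T ≤ x.θ := by
    have : (0 : ℝ) ≤ 1 / (201 * x.L) := by positivity
    nlinarith
  -- the sum of `k` over the classes
  have hsumk : ∑ β ∈ x.cls a, (x.kk P a β : ℝ) = x.t := by
    have h1 : ∑ β ∈ x.cls a, x.kk P a β = x.t := by
      rw [← hsum]
      apply Finset.sum_subset
      · intro β hβ
        rw [Finset.mem_range]
        exact ((hcls β).mp hβ).1
      · intro β _ hβ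
        apply hz
        unfold Prm.uP Prm.u
        rw [if_neg hβ]
        simp
    exact_mod_cast h1
  set N : ℝ := x.h * x.t with hNd
  have hN : 0 < N := by rw [hNd]; positivity
  set κ : ℝ := x.η / (10 ^ 5 * x.L ^ 2) with hκd
  have hκ0 : 0 < κ := by rw [hκd]; positivity
  have hκ : κ ≤ 1 / 2 := by
    rw [hκd, div_le_iff₀ (by positivity)]
    nlinarith
  have hdem0 : ∀ β ∈ x.cls a, 0 < x.dem a β := by
    intro β hβ
    have h1 := (hdem β hβ).1
    have : 0 < 7 / 50 * x.θ * x.μ := by positivity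
    linarith
  have hTT0 : ∀ β, 0 < TT x a β := by
    intro β
    obtain ⟨g1, -⟩ := TT_bounds hT hS x hx a haR β
    have : (1 : ℝ) / (100 * x.L) ≤ 1 / 4 := by
      rw [div_le_div_iff₀ (by positivity) (by norm_num)]
      linarith
    nlinarith
  have hkt0 : ∀ β ∈ x.cls a, 0 < ((s.kt a β : ℕ) : ℝ) := by
    intro β hβ
    exact (term_bound hN (hTT0 β) (hdem0 β hβ) (Nat.cast_nonneg (x.kk P a β)) hκ (hkt β hβ)).1
  have hterm : ∀ β ∈ x.cls a,
      |x.dem a β * (x.kk P a β : ℝ) / (s.kt a β : ℝ) - T / N * (x.kk P a β : ℝ)| ≤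
        2 * κ * (T / N) * (x.kk P a β : ℝ) := by
    intro β hβ
    by_cases h0 : x.kk P a β = 0
    · rw [h0]
      simp
    have h1 := (term_bound hN (hTT0 β) (hdem0 β hβ) (Nat.cast_nonneg (x.kk P a β)) hκ
      (hkt β hβ)).2
    have h2 : TT x a β = T := by
      unfold TT
      split_ifs with h3
      · have h4 : x.tp P = decide (a < β) := by
          by_contra h5
          exact h0 (hz β (uP_zero x P a β h3 h5))
        rw [hTd, h4]
      · rw [hTd]
        exact (((hT x hx a haR (x.tp P)).2.2.1 h3).1).symm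
    rw [h2] at h1
    exact h1
  -- rewrite the sum
  have hSu : ∑ β ∈ s.cls x.p a, s.lo x.D a β * (s.k P a β : ℝ) / s.kt a β =
      ∑ β ∈ x.cls a, (s.ω * (x.kk P a β : ℝ) -
        x.dem a β * (x.kk P a β : ℝ) / (s.kt a β : ℝ)) := by
    apply Finset.sum_congr rfl
    intro β hβ
    have h1 := hkt0 β hβ
    have h2 : s.k P a β = x.kk P a β := hkP P hP' β
    rw [h2]
    have h3 : s.lo x.D a β = s.ω * s.kt a β - x.dem a β := rfl
    rw [h3]
    field_simp
  have hω : s.ω = x.θ / (2 * x.h * x.t) := rfl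
  rw [hSu, Finset.sum_sub_distrib, ← Finset.mul_sum, hsumk, hω]
  have hE : |∑ β ∈ x.cls a, x.dem a β * (x.kk P a β : ℝ) / (s.kt a β : ℝ) -
      T / N * x.t| ≤ 2 * κ * (T / N) * x.t := by
    calc |∑ β ∈ x.cls a, x.dem a β * (x.kk P a β : ℝ) / (s.kt a β : ℝ) - T / N * x.t|
        = |∑ β ∈ x.cls a, (x.dem a β * (x.kk P a β : ℝ) / (s.kt a β : ℝ) -
            T / N * (x.kk P a β : ℝ))| := by
          rw [Finset.sum_sub_distrib, ← Finset.mul_sum, hsumk]
      _ ≤ ∑ β ∈ x.cls a, |x.dem a β * (x.kk P a β : ℝ) / (s.kt a β : ℝ) -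
            T / N * (x.kk P a β : ℝ)| := Finset.abs_sum_le_sum_abs _ _
      _ ≤ ∑ β ∈ x.cls a, 2 * κ * (T / N) * (x.kk P a β : ℝ) :=
          Finset.sum_le_sum fun β hβ => hterm β hβ
      _ = 2 * κ * (T / N) * x.t := by rw [← Finset.mul_sum, hsumk]
  have hE' := abs_le.mp hE
  have e1 : x.θ / (2 * x.h * x.t) * x.t = x.θ / 2 / x.h := by field_simp
  have e2 : T / N * x.t = T / x.h := by rw [hNd]; field_simp
  have e3 : 2 * κ * (T / N) * x.t = 2 * κ * (T / x.h) := by rw [hNd]; field_simp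
  rw [e1]
  rw [e2, e3] at hE'
  show |x.θ / 2 / x.h - _ - ((lab x.st (x.S P a)).card : ℝ) / x.D| ≤ x.e1 a
  -- the reserved labels
  obtain ⟨-, -, -, hsr⟩ := (hS x hx a haR).2.2 (x.tp P)
  have b1 := abs_le.1 (hsr P hP')
  -- units
  set w : ℝ := x.θ / (x.L * x.h) with hw
  have hw0 : 0 < w := by positivity
  have b2 : 2 * κ * (T / x.h) ≤ w * (x.η / 10 ^ 5) := by
    have : 2 * κ * (T / x.h) = T / (x.L * x.h) * (x.η / 10 ^ 5) * (2 / x.L) := by
      rw [hκd]; field_simp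
    rw [this]
    have c1 : T / (x.L * x.h) ≤ w := div_le_div_of_nonneg_right hT2 (by positivity)
    have c2 : 2 / (x.L : ℝ) ≤ 1 := by
      rw [div_le_one hL0]; linarith
    have c3 : 0 ≤ x.η / 10 ^ 5 := by positivity
    have c4 : T / (x.L * x.h) * (x.η / 10 ^ 5) ≤ w * (x.η / 10 ^ 5) :=
      mul_le_mul_of_nonneg_right c1 c3
    have c5 : 0 ≤ T / (x.L * x.h) * (x.η / 10 ^ 5) := by positivity
    nlinarith
  have b3 : x.η * x.θ / (100 * x.L * x.h) = w * (x.η / 100) := by rw [hw]; field_simp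
  rw [b3] at b1
  obtain ⟨-, -, h3, h4, -⟩ := hT x hx a haR (x.tp P)
  have herr : ∀ E : ℝ, |T + x.sr (x.tp P) a - x.θ / 2| ≤ E →
      |x.θ / 2 / x.h - T / x.h - x.sr (x.tp P) a / x.h| ≤ E / x.h := by
    intro E hE
    have : x.θ / 2 / x.h - T / x.h - x.sr (x.tp P) a / x.h =
        -((T + x.sr (x.tp P) a - x.θ / 2) / x.h) := by ring
    rw [this, abs_neg, abs_div, abs_of_pos hh0]
    exact div_le_div_of_nonneg_right hE hh0.le
  have hηw : w * x.η ≤ w * (1 / 10 ^ 18) := mul_le_mul_of_nonneg_left hη hw0.le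
  have hE1a : x.θ / (10 ^ 7 * x.L * x.h) = w * (1 / 10 ^ 7) := by rw [hw]; field_simp
  have hE1b : x.n0 * x.μ * x.θ / (10 ^ 6 * x.L * x.h) = w * (x.n0 * x.μ) / 10 ^ 6 := by
    rw [hw]; field_simp
  by_cases h0 : a ∈ x.R0
  · have g := abs_le.1 (herr _ (h4 h0))
    have hv := par_v x hx
    have e4 : 7 / 10 * (x.n0 * x.μ * x.θ) / x.h ≤ w * (1 / 10 ^ 12) := by
      have c1 : x.n0 * x.μ * x.θ ≤ 1 / (10 ^ 12 * x.L * x.h) * x.θ :=
        mul_le_mul_of_nonneg_right hv hθ.le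
      have c2 : 1 / (10 ^ 12 * (x.L : ℝ) * x.h) * x.θ = w * (1 / 10 ^ 12) := by
        rw [hw]; field_simp
      rw [c2] at c1
      rw [div_le_iff₀ hh0]
      have c3 : 0 < w * (1 / 10 ^ 12) := by positivity
      nlinarith
    have he : x.e1 a = x.θ / (10 ^ 7 * x.L * x.h) := by
      unfold Prm.e1
      rw [if_pos (Or.inl h0)]
    rw [he, hE1a, abs_le]
    constructor
    · linarith [g.1, b1.2, hE'.2]
    · linarith [g.2, b1.1, hE'.1]
  · have g := abs_le.1 (herr _ (h3 h0).2)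
    have e4 : x.η * x.θ / (50 * x.L) / x.h = w * (x.η / 50) := by rw [hw]; field_simp
    rw [e4] at g
    have hV2 : w * (10 ^ 6 * x.η) ≤ w * (x.n0 * x.μ) := mul_le_mul_of_nonneg_left hx.V2 hw0.le
    have he : w * (x.η / 25) ≤ x.e1 a := by
      unfold Prm.e1
      split_ifs
      · rw [hE1a]
        linarith
      · rw [hE1b]
        have : 0 < w * x.η := by positivity
        linarith
    refine le_trans ?_ he
    rw [abs_le]
    have : 0 < w * x.η := by positivity
    constructor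
    · linarith [g.1, b1.2, hE'.2]
    · linarith [g.2, b1.1, hE'.1]

end Pool.Agent.H15.HX
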